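import Pool.Agent.K4H30.SW.Pat

/-!
The chain of equalities.
-/

namespace K4H30.SW

open Finset

variable {n : ℕ}

/-- `3 ? ? 5 4` with the two question marks below -/
def Bad1 (π : Equiv.Perm (Fin n)) : Prop :=
  ∃ i x y a b, i < x ∧ x < y ∧ y < a ∧ a < b ∧ π x < π i ∧ π y < π i ∧ π i < π b ∧ π b < π a

/-- `? ? 3 5 4` -/
def Bad2 (π : Equiv.Perm (Fin n)) : Prop :=
  ∃ x y i a b, x < y ∧ y < i ∧ i < a ∧ a < b ∧ π x < π i ∧ π y < π i ∧ π i < π b ∧ π b < π a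

/-- `2 1 3 ? ?` -/
def Bad3 (π : Equiv.Perm (Fin n)) : Prop :=
  ∃ i x a b c, i < x ∧ x < a ∧ a < b ∧ b < c ∧ π x < π i ∧ π i < π a ∧ π a < π b ∧ π a < π c

/-- `1 2 3 ? ?` -/
def Bad4 (π : Equiv.Perm (Fin n)) : Prop :=
  ∃ x i a b c, x < i ∧ i < a ∧ a < b ∧ b < c ∧ π x < π i ∧ π i < π a ∧ π a < π b ∧ π a < π c

theorem two_le {s : Finset (Fin n)} : ¬ #s < 2 ↔ ∃ x y, x < y ∧ x ∈ s ∧ y ∈ s := by
  rw [not_lt]
  constructor
  · intro h
    obtain ⟨x, hx, y, hy, hxy⟩ := one_lt_card.1 h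
    rcases lt_or_gt_of_ne hxy with h | h
    · exact ⟨x, y, h, hx, hy⟩
    · exact ⟨y, x, h, hy, hx⟩
  · rintro ⟨x, y, h, hx, hy⟩
    exact one_lt_card.2 ⟨x, hx, y, hy, h.ne⟩

theorem one_le {s : Finset (Fin n)} : ¬ #s < 1 ↔ ∃ x, x ∈ s := by
  rw [not_lt, Nat.one_le_iff_ne_zero, card_ne_zero]
  rfl

open scoped Classical in
theorem bad1_iff (π : Equiv.Perm (Fin n)) :
    (∀ i, Above T2 π i (π i) →
      #((A (Above T2 π) π (π i)).filter fun c' => i < c') < 2) ↔ ¬ Bad1 π := by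
  rw [← not_iff_not, not_not]
  push Not
  constructor
  · rintro ⟨i, hi, h⟩
    obtain ⟨x, y, hxy, hx, hy⟩ := two_le.1 (not_lt.2 h)
    rw [mem_filter, mem_A] at hx hy
    obtain ⟨⟨hx1, hx2⟩, hx3⟩ := hx
    obtain ⟨⟨hy1, hy2⟩, hy3⟩ := hy
    obtain ⟨a, b, h1, h2, h3, h4⟩ := (above2 π _ _).1 hy2
    exact ⟨i, x, y, a, b, hx3, hxy, h1, h2,
      lt_of_le_of_ne hx1 (fun h => hx3.ne' (π.injective h)),
      lt_of_le_of_ne hy1 (fun h => hy3.ne' (π.injective h)), h3, h4⟩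
  · rintro ⟨i, x, y, a, b, h1, h2, h3, h4, h5, h6, h7, h8⟩
    have hF : Above T2 π y (π i) := (above2 π _ _).2 ⟨a, b, h3, h4, h7, h8⟩
    have hD := above_down T2 π
    refine ⟨i, hD _ _ _ _ (h1.trans h2).le le_rfl hF, ?_⟩
    refine not_lt.1 (two_le.2 ⟨x, y, h2, ?_, ?_⟩)
    · rw [mem_filter, mem_A]
      exact ⟨⟨h5.le, hD _ _ _ _ h2.le le_rfl hF⟩, h1⟩
    · rw [mem_filter, mem_A]
      exact ⟨⟨h6.le, hF⟩, h1.trans h2⟩

open scoped Classical in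
theorem bad2_iff (π : Equiv.Perm (Fin n)) :
    (∀ i, Above T2 π i (π i) →
      #((A (Above T2 π) π (π i)).filter fun c' => c' < i) < 2) ↔ ¬ Bad2 π := by
  rw [← not_iff_not, not_not]
  push Not
  constructor
  · rintro ⟨i, hi, h⟩
    obtain ⟨x, y, hxy, hx, hy⟩ := two_le.1 (not_lt.2 h)
    rw [mem_filter, mem_A] at hx hy
    obtain ⟨⟨hx1, hx2⟩, hx3⟩ := hx
    obtain ⟨⟨hy1, hy2⟩, hy3⟩ := hy
    obtain ⟨a, b, h1, h2, h3, h4⟩ := (above2 π _ _).1 hi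
    exact ⟨x, y, i, a, b, hxy, hy3, h1, h2,
      lt_of_le_of_ne hx1 (fun h => hx3.ne (π.injective h)),
      lt_of_le_of_ne hy1 (fun h => hy3.ne (π.injective h)), h3, h4⟩
  · rintro ⟨x, y, i, a, b, h1, h2, h3, h4, h5, h6, h7, h8⟩
    have hF : Above T2 π i (π i) := (above2 π _ _).2 ⟨a, b, h3, h4, h7, h8⟩
    have hD := above_down T2 π
    refine ⟨i, hF, ?_⟩
    refine not_lt.1 (two_le.2 ⟨x, y, h1, ?_, ?_⟩)
    · rw [mem_filter, mem_A]
      exact ⟨⟨h5.le, hD _ _ _ _ (h1.trans h2).le le_rfl hF⟩, h1.trans h2⟩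
    · rw [mem_filter, mem_A]
      exact ⟨⟨h6.le, hD _ _ _ _ h2.le le_rfl hF⟩, h2⟩

open scoped Classical in
theorem bad3_iff (π : Equiv.Perm (Fin n)) :
    (∀ i, Above T3 π i (π i) →
      #((A (Above T3 π) π (π i)).filter fun c' => i < c') < 1) ↔ ¬ Bad3 π := by
  rw [← not_iff_not, not_not]
  push Not
  constructor
  · rintro ⟨i, hi, h⟩
    obtain ⟨x, hx⟩ := one_le.1 (not_lt.2 h)
    rw [mem_filter, mem_A] at hx
    obtain ⟨⟨hx1, hx2⟩, hx3⟩ := hx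
    obtain ⟨a, b, c, h1, h2, h3, h4, h5, h6⟩ := (above3 π _ _).1 hx2
    exact ⟨i, x, a, b, c, hx3, h1, h2, h3,
      lt_of_le_of_ne hx1 (fun h => hx3.ne' (π.injective h)), h4, h5, h6⟩
  · rintro ⟨i, x, a, b, c, h1, h2, h3, h4, h5, h6, h7, h8⟩
    have hF : Above T3 π x (π i) := (above3 π _ _).2 ⟨a, b, c, h2, h3, h4, h6, h7, h8⟩
    have hD := above_down T3 π
    refine ⟨i, hD _ _ _ _ h1.le le_rfl hF, ?_⟩
    refine not_lt.1 (one_le.2 ⟨x, ?_⟩)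
    rw [mem_filter, mem_A]
    exact ⟨⟨h5.le, hF⟩, h1⟩

open scoped Classical in
theorem bad4_iff (π : Equiv.Perm (Fin n)) :
    (∀ i, Above T3 π i (π i) →
      #((A (Above T3 π) π (π i)).filter fun c' => c' < i) < 1) ↔ ¬ Bad4 π := by
  rw [← not_iff_not, not_not]
  push Not
  constructor
  · rintro ⟨i, hi, h⟩
    obtain ⟨x, hx⟩ := one_le.1 (not_lt.2 h)
    rw [mem_filter, mem_A] at hx
    obtain ⟨⟨hx1, hx2⟩, hx3⟩ := hx
    obtain ⟨a, b, c, h1, h2, h3, h4, h5, h6⟩ := (above3 π _ _).1 hi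
    exact ⟨x, i, a, b, c, hx3, h1, h2, h3,
      lt_of_le_of_ne hx1 (fun h => hx3.ne (π.injective h)), h4, h5, h6⟩
  · rintro ⟨x, i, a, b, c, h1, h2, h3, h4, h5, h6, h7, h8⟩
    have hF : Above T3 π i (π i) := (above3 π _ _).2 ⟨a, b, c, h2, h3, h4, h6, h7, h8⟩
    have hD := above_down T3 π
    refine ⟨i, hF, ?_⟩
    refine not_lt.1 (one_le.2 ⟨x, ?_⟩)
    rw [mem_filter, mem_A]
    exact ⟨⟨h5.le, hD _ _ _ _ h1.le le_rfl hF⟩, h1⟩

theorem avoid4 (π : Equiv.Perm (Fin n)) :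
    (¬ Contains π ![1, 2, 3, 4, 5] ∧ ¬ Contains π ![1, 2, 3, 5, 4]) ↔ ¬ Bad4 π := by
  rw [c12345, c12354, ← not_or]
  refine not_congr ?_
  constructor
  · rintro (⟨x, i, a, b, c, h1, h2, h3, h4, h5, h6, h7, h8⟩ |
      ⟨x, i, a, b, c, h1, h2, h3, h4, h5, h6, h7, h8⟩)
    · exact ⟨x, i, a, b, c, h1, h2, h3, h4, h5, h6, h7, h7.trans h8⟩
    · exact ⟨x, i, a, b, c, h1, h2, h3, h4, h5, h6, h7.trans h8, h7⟩
  · rintro ⟨x, i, a, b, c, h1, h2, h3, h4, h5, h6, h7, h8⟩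
    have hbc : π b ≠ π c := fun h => h4.ne (π.injective h)
    rcases lt_or_gt_of_ne hbc with h | h
    · exact Or.inl ⟨x, i, a, b, c, h1, h2, h3, h4, h5, h6, h7, h⟩
    · exact Or.inr ⟨x, i, a, b, c, h1, h2, h3, h4, h5, h6, h8, h⟩

/-- reversal -/
theorem avoid1 (π : Equiv.Perm (Fin n)) :
    (¬ Contains (Fin.revPerm.trans π) ![4, 5, 1, 2, 3] ∧
      ¬ Contains (Fin.revPerm.trans π) ![4, 5, 2, 1, 3]) ↔ ¬ Bad1 π := by
  rw [c45123, c45213, ← not_or]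
  refine not_congr ?_
  simp only [Equiv.trans_apply, Fin.revPerm_apply]
  constructor
  · rintro (⟨a, b, c, d, e, h1, h2, h3, h4, h5, h6, h7, h8⟩ |
      ⟨a, b, c, d, e, h1, h2, h3, h4, h5, h6, h7, h8⟩)
    · exact ⟨e.rev, d.rev, c.rev, b.rev, a.rev, Fin.rev_lt_rev.2 h4, Fin.rev_lt_rev.2 h3,
        Fin.rev_lt_rev.2 h2, Fin.rev_lt_rev.2 h1, h6, h5.trans h6, h7, h8⟩
    · exact ⟨e.rev, d.rev, c.rev, b.rev, a.rev, Fin.rev_lt_rev.2 h4, Fin.rev_lt_rev.2 h3,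
        Fin.rev_lt_rev.2 h2, Fin.rev_lt_rev.2 h1, h5.trans h6, h6, h7, h8⟩
  · rintro ⟨i, x, y, a, b, h1, h2, h3, h4, h5, h6, h7, h8⟩
    have hxy : π x ≠ π y := fun h => h2.ne (π.injective h)
    rcases lt_or_gt_of_ne hxy with h | h
    · refine Or.inr ⟨b.rev, a.rev, y.rev, x.rev, i.rev, Fin.rev_lt_rev.2 h4,
        Fin.rev_lt_rev.2 h3, Fin.rev_lt_rev.2 h2, Fin.rev_lt_rev.2 h1, ?_⟩
      simp only [Fin.rev_rev]
      exact ⟨h, h6, h7, h8⟩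
    · refine Or.inl ⟨b.rev, a.rev, y.rev, x.rev, i.rev, Fin.rev_lt_rev.2 h4,
        Fin.rev_lt_rev.2 h3, Fin.rev_lt_rev.2 h2, Fin.rev_lt_rev.2 h1, ?_⟩
      simp only [Fin.rev_rev]
      exact ⟨h, h5, h7, h8⟩

/-- reverse-complement -/
theorem bad23 (π : Equiv.Perm (Fin n)) :
    Bad2 ((Fin.revPerm.trans π).trans Fin.revPerm) ↔ Bad3 π := by
  constructor
  · rintro ⟨x, y, i, a, b, h1, h2, h3, h4, h5, h6, h7, h8⟩
    simp only [Equiv.trans_apply, Fin.revPerm_apply, Fin.rev_lt_rev] at h5 h6 h7 h8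
    exact ⟨b.rev, a.rev, i.rev, y.rev, x.rev, Fin.rev_lt_rev.2 h4, Fin.rev_lt_rev.2 h3,
      Fin.rev_lt_rev.2 h2, Fin.rev_lt_rev.2 h1, h8, h7, h6, h5⟩
  · rintro ⟨i, x, a, b, c, h1, h2, h3, h4, h5, h6, h7, h8⟩
    refine ⟨c.rev, b.rev, a.rev, x.rev, i.rev, Fin.rev_lt_rev.2 h4, Fin.rev_lt_rev.2 h3,
      Fin.rev_lt_rev.2 h2, Fin.rev_lt_rev.2 h1, ?_⟩
    simp only [Equiv.trans_apply, Fin.revPerm_apply, Fin.rev_lt_rev, Fin.rev_rev]
    exact ⟨h8, h7, h6, h5⟩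

open scoped Classical in
theorem step12 : #(univ.filter fun π : Equiv.Perm (Fin n) => ¬ Bad1 π) =
    #(univ.filter fun π : Equiv.Perm (Fin n) => ¬ Bad2 π) := by
  have h := glob (n := n) T2 2
  simp only [bad1_iff, bad2_iff] at h
  exact h

open scoped Classical in
theorem step34 : #(univ.filter fun π : Equiv.Perm (Fin n) => ¬ Bad3 π) =
    #(univ.filter fun π : Equiv.Perm (Fin n) => ¬ Bad4 π) := by
  have h := glob (n := n) T3 1
  simp only [bad3_iff, bad4_iff] at h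
  exact h

open scoped Classical in
theorem step23 : #(univ.filter fun π : Equiv.Perm (Fin n) => ¬ Bad3 π) =
    #(univ.filter fun π : Equiv.Perm (Fin n) => ¬ Bad2 π) := by
  refine card_bij (fun π _ => (Fin.revPerm.trans π).trans Fin.revPerm) ?_ ?_ ?_
  · intro π hπ
    simp only [mem_filter, mem_univ, true_and] at hπ ⊢
    rwa [bad23]
  · intro π _ σ _ h
    apply Equiv.ext
    intro i
    have h1 := congrArg (fun f : Equiv.Perm (Fin n) => f i.rev) h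
    simp only [Equiv.trans_apply, Fin.revPerm_apply, Fin.rev_rev, Fin.rev_inj] at h1
    exact h1
  · intro σ hσ
    refine ⟨(Fin.revPerm.trans σ).trans Fin.revPerm, ?_, ?_⟩
    · simp only [mem_filter, mem_univ, true_and] at hσ ⊢
      rw [← bad23]
      convert hσ
      ext i
      simp
    · ext i
      simp

open scoped Classical in
theorem main_card : #(univ.filter fun π : Equiv.Perm (Fin n) =>
      ¬ Contains π ![4, 5, 1, 2, 3] ∧ ¬ Contains π ![4, 5, 2, 1, 3]) =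
    #(univ.filter fun π : Equiv.Perm (Fin n) =>
      ¬ Contains π ![1, 2, 3, 4, 5] ∧ ¬ Contains π ![1, 2, 3, 5, 4]) := by
  simp only [avoid4]
  rw [← step34, step23, ← step12]
  symm
  refine card_bij (fun π _ => Fin.revPerm.trans π) ?_ ?_ ?_
  · intro π hπ
    simp only [mem_filter, mem_univ, true_and] at hπ ⊢
    exact (avoid1 π).2 hπ
  · intro π _ σ _ h
    ext i
    have := congrArg (fun f : Equiv.Perm (Fin n) => f i.rev) h
    simpa using congrArg Fin.val this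
  · intro σ hσ
    refine ⟨Fin.revPerm.trans σ, ?_, ?_⟩
    · simp only [mem_filter, mem_univ, true_and] at hσ ⊢
      rw [← avoid1]
      have h1 : Fin.revPerm.trans (Fin.revPerm.trans σ) = σ := by
        ext i
        simp
      rw [h1]
      exact hσ
    · ext i
      simp

theorem main_nat (n : ℕ) :
    Nat.card {π : Equiv.Perm (Fin n) //
      ¬ Contains π ![4, 5, 1, 2, 3] ∧ ¬ Contains π ![4, 5, 2, 1, 3]} =
    Nat.card {π : Equiv.Perm (Fin n) //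
      ¬ Contains π ![1, 2, 3, 4, 5] ∧ ¬ Contains π ![1, 2, 3, 5, 4]} := by
  classical
  rw [Nat.card_eq_fintype_card, Nat.card_eq_fintype_card, Fintype.card_subtype,
    Fintype.card_subtype]
  exact main_card

end K4H30.SW
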