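import Pool.Agent.K4H30.SW.Main

/-!
The shape-Wilf step for whole permutations.
-/

namespace K4H30.SW

open Finset

/-- the cell `(i, j)` has an occurrence of a pattern of `T` strictly to its north-east -/
def Above {n m : ℕ} (T : (Fin m → ℕ) → Prop) (π : Equiv.Perm (Fin n)) (i j : Fin n) : Prop :=
  ∃ (σ : Fin m → ℕ) (f : Fin m → Fin n), T σ ∧ StrictMono f ∧ (∀ a, i < f a ∧ j < π (f a)) ∧
    ∀ a b, π (f a) < π (f b) ↔ σ a < σ b

theorem above_down {n m : ℕ} (T : (Fin m → ℕ) → Prop) (π : Equiv.Perm (Fin n)) :
    Down (Above T π) := by
  rintro i j i' j' hi hj ⟨σ, f, h1, h2, h3, h4⟩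
  exact ⟨σ, f, h1, h2, fun a => ⟨hi.trans_lt (h3 a).1, hj.trans_lt (h3 a).2⟩, h4⟩

theorem outer {n m : ℕ} (T : (Fin m → ℕ) → Prop) (π : Equiv.Perm (Fin n)) :
    ∀ (d : ℕ) (i j : Fin n), n - (i : ℕ) ≤ d → Above T π i j →
      ∃ (σ : Fin m → ℕ) (f : Fin m → Fin n), T σ ∧ StrictMono f ∧
        (∀ a, i < f a ∧ j < π (f a)) ∧ (∀ a, ¬ Above T π (f a) (π (f a))) ∧
        ∀ a b, π (f a) < π (f b) ↔ σ a < σ b := by
  intro d
  induction d with
  | zero =>
    intro i j hd _
    have := i.2
    omega
  | succ d ih =>
    rintro i j hd ⟨σ, f, h1, h2, h3, h4⟩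
    by_cases hall : ∀ a, ¬ Above T π (f a) (π (f a))
    · exact ⟨σ, f, h1, h2, h3, hall, h4⟩
    · push Not at hall
      obtain ⟨a, ha⟩ := hall
      obtain ⟨σ', f', g1, g2, g3, g4, g5⟩ := ih (f a) (π (f a)) (by
        have h5 : (i : ℕ) < f a := (h3 a).1
        have := (f a).2
        omega) ha
      exact ⟨σ', f', g1, g2, fun b => ⟨(h3 a).1.trans (g3 b).1, (h3 a).2.trans (g3 b).2⟩, g4, g5⟩

/-- moving rooks inside the board does not change the board -/
theorem above_eq {n m : ℕ} (T : (Fin m → ℕ) → Prop) {p π : Equiv.Perm (Fin n)}
    (h : Cl (Above T p) p n π) : Above T π = Above T p := by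
  have hin : ∀ i, Above T p i (p i) ↔ Above T p i (π i) := by
    intro i
    constructor
    · exact h.1 i
    · intro hi
      by_contra h1
      rw [h.2 i (Or.inl h1)] at hi
      exact h1 hi
  have hout : ∀ i, ¬ Above T p i (π i) → π i = p i := fun i hi =>
    h.2 i (Or.inl fun h1 => hi ((hin i).1 h1))
  funext i j
  apply propext
  constructor
  · rintro ⟨σ, f, h1, h2, h3, h4⟩
    by_cases hall : ∀ a, ¬ Above T p (f a) (π (f a))
    · refine ⟨σ, f, h1, h2, fun a => ?_, fun a b => ?_⟩
      · rw [← hout _ (hall a)]
        exact h3 a
      · rw [← hout _ (hall a), ← hout _ (hall b)]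
        exact h4 a b
    · push Not at hall
      obtain ⟨a, ha⟩ := hall
      exact above_down T p _ _ _ _ (h3 a).1.le (h3 a).2.le ha
  · intro hij
    obtain ⟨σ, f, h1, h2, h3, h4, h5⟩ := outer T p (n - (i : ℕ)) i j le_rfl hij
    have h6 : ∀ a, π (f a) = p (f a) := fun a => h.2 _ (Or.inl (h4 a))
    refine ⟨σ, f, h1, h2, fun a => ?_, fun a b => ?_⟩
    · rw [h6]
      exact h3 a
    · rw [h6, h6]
      exact h5 a b

open scoped Classical in
/-- key of a permutation: its board and the rooks outside -/
noncomputable def key {n m : ℕ} (T : (Fin m → ℕ) → Prop) (π : Equiv.Perm (Fin n)) :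
    (Fin n → Fin n → Prop) × (Fin n → Option (Fin n)) :=
  (Above T π, fun i => if Above T π i (π i) then none else some (π i))

theorem key_iff {n m : ℕ} (T : (Fin m → ℕ) → Prop) (p π : Equiv.Perm (Fin n)) :
    key T π = key T p ↔ Cl (Above T p) p n π := by
  classical
  constructor
  · intro h
    have h1 : Above T π = Above T p := congrArg Prod.fst h
    have h2 := congrArg Prod.snd h
    have h3 : ∀ i, (if Above T π i (π i) then none else some (π i)) =
        (if Above T p i (p i) then none else some (p i)) := fun i => congrFun h2 i
    rw [h1] at h3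
    refine ⟨fun i hi => ?_, fun i hi => ?_⟩
    · have h4 := h3 i
      rw [if_pos hi] at h4
      by_contra h5
      rw [if_neg h5] at h4
      exact Option.some_ne_none _ h4
    · rcases hi with hi | hi
      · have h4 := h3 i
        rw [if_neg hi] at h4
        split_ifs at h4 with h5
        exact Option.some_injective _ h4
      · have := (p i).2
        omega
  · intro h
    have h1 := above_eq T h
    have hin : ∀ i, Above T p i (p i) ↔ Above T p i (π i) := by
      intro i
      constructor
      · exact h.1 i
      · intro hi
        by_contra h1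
        rw [h.2 i (Or.inl h1)] at hi
        exact h1 hi
    unfold key
    rw [h1]
    congr 1
    funext i
    by_cases hi : Above T p i (p i)
    · rw [if_pos hi, if_pos ((hin i).1 hi)]
    · rw [if_neg hi, if_neg fun h5 => hi ((hin i).2 h5), h.2 i (Or.inl hi)]

theorem sel_right {n : ℕ} (k : ℕ) (B : Finset (Fin n)) :
    #(B.filter fun c => #(B.filter fun c' => c' < c) < k) = min k #B := by
  induction B using Finset.induction_on_max with
  | empty => simp
  | insert a s ha ih =>
    have has : a ∉ s := fun h => lt_irrefl _ (ha a h)
    have h1 : (insert a s).filter (fun c => #((insert a s).filter fun c' => c' < c) < k) =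
        if #s < k then insert a (s.filter fun c => #(s.filter fun c' => c' < c) < k)
        else s.filter fun c => #(s.filter fun c' => c' < c) < k := by
      have h2 : (insert a s).filter (fun c' => c' < a) = s := by
        ext x
        simp only [mem_filter, mem_insert]
        constructor
        · rintro ⟨rfl | h, h'⟩
          · exact absurd h' (lt_irrefl _)
          · exact h
        · intro h
          exact ⟨Or.inr h, ha x h⟩
      have h3 : ∀ c ∈ s, (insert a s).filter (fun c' => c' < c) = s.filter fun c' => c' < c := by
        intro c hc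
        ext x
        simp only [mem_filter, mem_insert]
        constructor
        · rintro ⟨rfl | h, h'⟩
          · exact absurd (h'.trans (ha c hc)) (lt_irrefl _)
          · exact ⟨h, h'⟩
        · rintro ⟨h, h'⟩
          exact ⟨Or.inr h, h'⟩
      rw [filter_insert, h2]
      have h4 : s.filter (fun c => #((insert a s).filter fun c' => c' < c) < k) =
          s.filter fun c => #(s.filter fun c' => c' < c) < k := by
        refine filter_congr fun c hc => ?_
        rw [h3 c hc]
      rw [h4]
    rw [h1]
    split_ifs with h
    · rw [card_insert_of_notMem (fun h' => has (mem_filter.1 h').1), ih,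
        card_insert_of_notMem has]
      omega
    · rw [ih, card_insert_of_notMem has]
      omega

theorem sel_left {n : ℕ} (k : ℕ) (B : Finset (Fin n)) :
    #(B.filter fun c => #(B.filter fun c' => c < c') < k) = min k #B := by
  induction B using Finset.induction_on_min with
  | empty => simp
  | insert a s ha ih =>
    have has : a ∉ s := fun h => lt_irrefl _ (ha a h)
    have h1 : (insert a s).filter (fun c => #((insert a s).filter fun c' => c < c') < k) =
        if #s < k then insert a (s.filter fun c => #(s.filter fun c' => c < c') < k)
        else s.filter fun c => #(s.filter fun c' => c < c') < k := by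
      have h2 : (insert a s).filter (fun c' => a < c') = s := by
        ext x
        simp only [mem_filter, mem_insert]
        constructor
        · rintro ⟨rfl | h, h'⟩
          · exact absurd h' (lt_irrefl _)
          · exact h
        · intro h
          exact ⟨Or.inr h, ha x h⟩
      have h3 : ∀ c ∈ s, (insert a s).filter (fun c' => c < c') = s.filter fun c' => c < c' := by
        intro c hc
        ext x
        simp only [mem_filter, mem_insert]
        constructor
        · rintro ⟨rfl | h, h'⟩
          · exact absurd (h'.trans (ha c hc)) (lt_irrefl _)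
          · exact ⟨h, h'⟩
        · rintro ⟨h, h'⟩
          exact ⟨Or.inr h, h'⟩
      rw [filter_insert, h2]
      have h4 : s.filter (fun c => #((insert a s).filter fun c' => c < c') < k) =
          s.filter fun c => #(s.filter fun c' => c < c') < k := by
        refine filter_congr fun c hc => ?_
        rw [h3 c hc]
      rw [h4]
    rw [h1]
    split_ifs with h
    · rw [card_insert_of_notMem (fun h' => has (mem_filter.1 h').1), ih,
        card_insert_of_notMem has]
      omega
    · rw [ih, card_insert_of_notMem has]
      omega

open scoped Classical in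
/-- **the equality of counts** -/
theorem glob {n m : ℕ} (T : (Fin m → ℕ) → Prop) (k : ℕ) :
    #(univ.filter fun π : Equiv.Perm (Fin n) => ∀ i, Above T π i (π i) →
      #((A (Above T π) π (π i)).filter fun c' => i < c') < k) =
    #(univ.filter fun π : Equiv.Perm (Fin n) => ∀ i, Above T π i (π i) →
      #((A (Above T π) π (π i)).filter fun c' => c' < i) < k) := by
  set s1 := (univ.filter fun π : Equiv.Perm (Fin n) => ∀ i, Above T π i (π i) →
      #((A (Above T π) π (π i)).filter fun c' => i < c') < k) with hs1
  set s2 := (univ.filter fun π : Equiv.Perm (Fin n) => ∀ i, Above T π i (π i) →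
      #((A (Above T π) π (π i)).filter fun c' => c' < i) < k) with hs2
  rw [card_eq_sum_card_fiberwise (s := s1) (f := key T) (t := univ.image (key T))
      (fun π _ => mem_image_of_mem _ (mem_univ _)),
    card_eq_sum_card_fiberwise (s := s2) (f := key T) (t := univ.image (key T))
      (fun π _ => mem_image_of_mem _ (mem_univ _))]
  refine sum_congr rfl fun κ hκ => ?_
  obtain ⟨p, -, rfl⟩ := mem_image.1 hκ
  have e1 : s1.filter (fun π => key T π = key T p) =
      univ.filter fun π : Equiv.Perm (Fin n) => Cl (Above T p) p n π ∧
        ∀ i, Above T p i (π i) → (π i : ℕ) < n →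
          (fun B c => #(B.filter fun c' => c < c') < k) (A (Above T p) π (π i)) i := by
    ext π
    simp only [hs1, mem_filter, mem_univ, true_and]
    rw [key_iff, and_comm]
    refine and_congr_right fun h => ?_
    rw [above_eq T h]
    exact ⟨fun h' i hi _ => h' i hi, fun h' i hi => h' i hi (π i).2⟩
  have e2 : s2.filter (fun π => key T π = key T p) =
      univ.filter fun π : Equiv.Perm (Fin n) => Cl (Above T p) p n π ∧
        ∀ i, Above T p i (π i) → (π i : ℕ) < n →
          (fun B c => #(B.filter fun c' => c' < c) < k) (A (Above T p) π (π i)) i := by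
    ext π
    simp only [hs2, mem_filter, mem_univ, true_and]
    rw [key_iff, and_comm]
    refine and_congr_right fun h => ?_
    rw [above_eq T h]
    exact ⟨fun h' i hi _ => h' i hi, fun h' i hi => h' i hi (π i).2⟩
  rw [e1, e2]
  have c1 := count (Above T p) (above_down T p) (fun x => min k x)
    (fun B c => #(B.filter fun c' => c < c') < k) (fun B => by
      have := sel_left k B
      convert this) n le_rfl p
  have c2 := count (Above T p) (above_down T p) (fun x => min k x)
    (fun B c => #(B.filter fun c' => c' < c) < k) (fun B => by
      have := sel_right k B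
      convert this) n le_rfl p
  rw [← c2] at c1
  convert c1

end K4H30.SW
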