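import Mathlib

/-!
Rearranging rooks inside a down-closed board, row by row.
-/

namespace K4H30.SW

open Finset

open scoped Classical in
/-- columns that are available for row `r`: cells `(c, r)` in the board whose own rook is weakly
below row `r` -/
noncomputable def A {n : ℕ} (F : Fin n → Fin n → Prop) (π : Equiv.Perm (Fin n)) (r : Fin n) :
    Finset (Fin n) :=
  univ.filter fun c => π c ≤ r ∧ F c r

theorem mem_A {n : ℕ} {F : Fin n → Fin n → Prop} {π : Equiv.Perm (Fin n)} {r c : Fin n} :
    c ∈ A F π r ↔ π c ≤ r ∧ F c r := by
  classical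
  simp [A]

/-- `π` is obtained from `p` by moving only rooks of the board in rows `< t`, inside the board -/
def Cl {n : ℕ} (F : Fin n → Fin n → Prop) (p : Equiv.Perm (Fin n)) (t : ℕ)
    (π : Equiv.Perm (Fin n)) : Prop :=
  (∀ i, F i (p i) → F i (π i)) ∧ ∀ i, (¬ F i (p i) ∨ t ≤ (p i : ℕ)) → π i = p i

/-- down-closed boards -/
def Down {n : ℕ} (F : Fin n → Fin n → Prop) : Prop :=
  ∀ i j i' j', i' ≤ i → j' ≤ j → F i j → F i' j'

section basic

variable {n : ℕ} {F : Fin n → Fin n → Prop} {p π : Equiv.Perm (Fin n)} {t : ℕ}

theorem Cl.zero_iff : Cl F p 0 π ↔ π = p := by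
  constructor
  · intro h
    ext i
    rw [h.2 i (Or.inr (Nat.zero_le _))]
  · rintro rfl
    exact ⟨fun _ h => h, fun _ _ => rfl⟩

theorem Cl.high (h : Cl F p t π) {i : Fin n} (hi : t ≤ (π i : ℕ)) : p i = π i := by
  have h1 : t ≤ (p (p.symm (π i)) : ℕ) := by simpa using hi
  have h2 := h.2 (p.symm (π i)) (Or.inr h1)
  rw [Equiv.apply_symm_apply] at h2
  have h3 : p.symm (π i) = i := π.injective h2
  rw [← h3, Equiv.apply_symm_apply, h3]

theorem A_eq (hF : Down F) {r : Fin n} (h : Cl F p ((r : ℕ) + 1) π) : A F π r = A F p r := by
  ext c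
  rw [mem_A, mem_A]
  refine and_congr_left fun _ => ?_
  constructor
  · intro h1
    by_contra h2
    have h3 := h.2 c (Or.inr (by
      have : r < p c := not_le.mp h2
      exact this))
    rw [h3] at h1
    exact h2 h1
  · intro h1
    by_contra h2
    have h3 : (r : ℕ) + 1 ≤ (π c : ℕ) := by
      have : r < π c := not_le.mp h2
      exact this
    rw [h.high h3] at h1
    exact h2 h1

theorem symm_mem_A {r : Fin n} (h : Cl F p ((r : ℕ) + 1) π) (hr : F (p.symm r) r) :
    π.symm r ∈ A F p r := by
  rw [mem_A]
  set c := π.symm r with hc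
  have hπ : π c = r := by simp [hc]
  constructor
  · by_contra h2
    have h3 := h.2 c (Or.inr (by
      have : r < p c := not_le.mp h2
      exact this))
    rw [hπ] at h3
    exact h2 h3.ge
  · by_cases hFc : F c (p c)
    · have := h.1 c hFc
      rwa [hπ] at this
    · have h3 := h.2 c (Or.inl hFc)
      rw [hπ] at h3
      have : c = p.symm r := by rw [h3]; simp
      rwa [this]

/-- the swap lemma -/
theorem swap_iff (hF : Down F) {r c : Fin n} (hr : F (p.symm r) r) (hc : c ∈ A F p r) :
    Cl F (Equiv.swap c (p.symm r) |>.trans p) (r : ℕ) π ↔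
      Cl F p ((r : ℕ) + 1) π ∧ π c = r := by
  rw [mem_A] at hc
  obtain ⟨hc1, hc2⟩ := hc
  set c0 := p.symm r with hc0
  have hp0 : p c0 = r := by simp [hc0]
  set q : Equiv.Perm (Fin n) := (Equiv.swap c c0).trans p with hq
  have hqc : q c = r := by simp [hq, hp0]
  have hqc0 : q c0 = p c := by simp [hq]
  have hqo : ∀ i, i ≠ c → i ≠ c0 → q i = p i := by
    intro i h1 h2
    simp [hq, Equiv.swap_apply_of_ne_of_ne h1 h2]
  have hFpc : F c (p c) := hF _ _ _ _ le_rfl hc1 hc2
  have hFc0 : F c0 (p c) := hF _ _ _ _ le_rfl hc1 hr
  constructor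
  · intro h
    have hπc : π c = r := by
      have := h.2 c (Or.inr (by rw [hqc]))
      rw [this, hqc]
    refine ⟨⟨?_, ?_⟩, hπc⟩
    · intro i hi
      by_cases h1 : i = c
      · subst h1
        rw [hπc]
        exact hc2
      by_cases h2 : i = c0
      · subst h2
        exact h.1 _ (by rw [hqc0]; exact hFc0)
      · exact h.1 i (by rw [hqo i h1 h2]; exact hi)
    · intro i hi
      by_cases h1 : i = c
      · subst h1
        exfalso
        rcases hi with hi | hi
        · exact hi hFpc
        · have : p i ≤ r := hc1
          have h5 : (p i : ℕ) ≤ r := this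
          omega
      by_cases h2 : i = c0
      · exfalso
        rw [h2, hp0] at hi
        rcases hi with hi | hi
        · exact hi hr
        · omega
      · rw [← hqo i h1 h2]
        refine h.2 i ?_
        rw [hqo i h1 h2]
        rcases hi with hi | hi
        · exact Or.inl hi
        · exact Or.inr (by omega)
  · rintro ⟨h, hπc⟩
    refine ⟨?_, ?_⟩
    · intro i hi
      by_cases h1 : i = c
      · subst h1
        rw [hπc]
        exact hc2
      by_cases h2 : i = c0
      · rw [h2]
        exact h.1 _ (by rw [hp0]; exact hr)
      · exact h.1 i (by rw [hqo i h1 h2] at hi; exact hi)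
    · intro i hi
      by_cases h1 : i = c
      · subst h1
        rw [hπc, hqc]
      by_cases h2 : i = c0
      · exfalso
        rw [h2, hqc0] at hi
        rcases hi with hi | hi
        · exact hi hFc0
        · have h3 : p c = r := le_antisymm hc1 hi
          have h4 : c = c0 := p.injective (by rw [h3, hp0])
          exact h1 (h2.trans h4.symm)
      · rw [hqo i h1 h2] at hi ⊢
        refine h.2 i ?_
        rcases hi with hi | hi
        · exact Or.inl hi
        · refine Or.inr ?_
          have h3 : p i ≠ r := by
            intro h4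
            apply h2
            rw [← hp0] at h4
            exact p.injective h4
          have h4 : (p i : ℕ) ≠ r := fun h5 => h3 (Fin.ext h5)
          omega

theorem swap_A (hF : Down F) {r c : Fin n} (hr : F (p.symm r) r) (hc : c ∈ A F p r)
    {s : Fin n} (hs : s < r) :
    #(A F (Equiv.swap c (p.symm r) |>.trans p) s) = #(A F p s) := by
  rw [mem_A] at hc
  obtain ⟨hc1, hc2⟩ := hc
  set c0 := p.symm r with hc0
  have key : ∀ i, F (Equiv.swap c c0 i) s ↔ F i s := by
    intro i
    by_cases h1 : i = c
    · rw [h1, Equiv.swap_apply_left]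
      exact ⟨fun _ => hF _ _ _ _ le_rfl hs.le hc2, fun _ => hF _ _ _ _ le_rfl hs.le hr⟩
    by_cases h2 : i = c0
    · rw [h2, Equiv.swap_apply_right]
      exact ⟨fun _ => hF _ _ _ _ le_rfl hs.le hr, fun _ => hF _ _ _ _ le_rfl hs.le hc2⟩
    · rw [Equiv.swap_apply_of_ne_of_ne h1 h2]
  refine card_bij (fun i _ => Equiv.swap c c0 i) ?_ ?_ ?_
  · intro i hi
    rw [mem_A] at hi ⊢
    exact ⟨hi.1, (key i).2 hi.2⟩
  · intro i _ j _ hij
    exact (Equiv.swap c c0).injective hij
  · intro i hi
    refine ⟨Equiv.swap c c0 i, ?_, by simp⟩
    rw [mem_A] at hi ⊢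
    refine ⟨?_, (key i).2 hi.2⟩
    simpa using hi.1

theorem swap_F (hF : Down F) {r c : Fin n} (hr : F (p.symm r) r) (hc : c ∈ A F p r)
    {s : Fin n} (hs : s < r) :
    F ((Equiv.swap c (p.symm r) |>.trans p).symm s) s ↔ F (p.symm s) s := by
  rw [mem_A] at hc
  obtain ⟨hc1, hc2⟩ := hc
  set c0 := p.symm r with hc0
  have key : ∀ i, F (Equiv.swap c c0 i) s ↔ F i s := by
    intro i
    by_cases h1 : i = c
    · rw [h1, Equiv.swap_apply_left]
      exact ⟨fun _ => hF _ _ _ _ le_rfl hs.le hc2, fun _ => hF _ _ _ _ le_rfl hs.le hr⟩
    by_cases h2 : i = c0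
    · rw [h2, Equiv.swap_apply_right]
      exact ⟨fun _ => hF _ _ _ _ le_rfl hs.le hr, fun _ => hF _ _ _ _ le_rfl hs.le hc2⟩
    · rw [Equiv.swap_apply_of_ne_of_ne h1 h2]
  have : ((Equiv.swap c c0).trans p).symm s = Equiv.swap c c0 (p.symm s) := by
    simp [Equiv.symm_trans_apply]
  rw [this]
  exact key _

end basic

open scoped Classical in
/-- number of rearrangements satisfying the selection rule: a product over the rows -/
theorem count {n : ℕ} (F : Fin n → Fin n → Prop) (hF : Down F) (g : ℕ → ℕ)
    (sel : Finset (Fin n) → Fin n → Prop)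
    (hsel : ∀ B : Finset (Fin n), #(B.filter fun c => sel B c) = g #B) (t : ℕ) (ht : t ≤ n) :
    ∀ p : Equiv.Perm (Fin n),
      #(univ.filter fun π : Equiv.Perm (Fin n) => Cl F p t π ∧
        ∀ i, F i (π i) → (π i : ℕ) < t → sel (A F π (π i)) i) =
      ∏ r ∈ univ.filter (fun r : Fin n => F (p.symm r) r ∧ (r : ℕ) < t), g #(A F p r) := by
  induction t with
  | zero =>
    intro p
    have h1 : (univ.filter fun π : Equiv.Perm (Fin n) => Cl F p 0 π ∧
        ∀ i, F i (π i) → (π i : ℕ) < 0 → sel (A F π (π i)) i) = {p} := by
      ext π
      simp [Cl.zero_iff]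
    rw [h1]
    simp
  | succ t ih =>
    intro p
    have htn : t < n := ht
    have ih := ih htn.le
    set r : Fin n := ⟨t, htn⟩ with hr
    have hrt : (r : ℕ) = t := rfl
    by_cases hFr : F (p.symm r) r
    · -- the product
      have hprod : univ.filter (fun s : Fin n => F (p.symm s) s ∧ (s : ℕ) < t + 1) =
          insert r (univ.filter (fun s : Fin n => F (p.symm s) s ∧ (s : ℕ) < t)) := by
        ext s
        simp only [mem_filter, mem_univ, true_and, mem_insert]
        constructor
        · rintro ⟨h1, h2⟩
          by_cases h3 : s = r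
          · exact Or.inl h3
          · refine Or.inr ⟨h1, ?_⟩
            have h4 : (s : ℕ) ≠ r := fun h5 => h3 (Fin.ext h5)
            rw [hrt] at h4
            omega
        · rintro (rfl | ⟨h1, h2⟩)
          · exact ⟨hFr, by omega⟩
          · exact ⟨h1, by omega⟩
      rw [hprod, prod_insert (by simp [hrt])]
      -- the fibres
      have hmaps : ∀ π ∈ (univ.filter fun π : Equiv.Perm (Fin n) => Cl F p (t + 1) π ∧
          ∀ i, F i (π i) → (π i : ℕ) < t + 1 → sel (A F π (π i)) i),
          π.symm r ∈ A F p r := by
        intro π hπ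
        simp only [mem_filter, mem_univ, true_and] at hπ
        exact symm_mem_A hπ.1 hFr
      rw [card_eq_sum_card_fiberwise hmaps]
      have hfib : ∀ c ∈ A F p r,
          #((univ.filter fun π : Equiv.Perm (Fin n) => Cl F p (t + 1) π ∧
          ∀ i, F i (π i) → (π i : ℕ) < t + 1 → sel (A F π (π i)) i).filter
            fun π => π.symm r = c) =
          if sel (A F p r) c then
            ∏ s ∈ univ.filter (fun s : Fin n => F (p.symm s) s ∧ (s : ℕ) < t), g #(A F p s)
          else 0 := by
        intro c hc
        split_ifs with hs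
        · have h1 := ih ((Equiv.swap c (p.symm r)).trans p)
          have h2 : ∏ s ∈ univ.filter (fun s : Fin n =>
                F (((Equiv.swap c (p.symm r)).trans p).symm s) s ∧ (s : ℕ) < t),
                g #(A F ((Equiv.swap c (p.symm r)).trans p) s) =
              ∏ s ∈ univ.filter (fun s : Fin n => F (p.symm s) s ∧ (s : ℕ) < t),
                g #(A F p s) := by
            refine prod_congr ?_ ?_
            · ext s
              simp only [mem_filter, mem_univ, true_and]
              refine and_congr_left fun h => ?_
              exact swap_F hF hFr hc (show s < r from h)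
            · intro s hs
              simp only [mem_filter, mem_univ, true_and] at hs
              rw [swap_A hF hFr hc (show s < r from hs.2)]
          rw [← h2, ← h1]
          congr 1
          ext π
          simp only [mem_filter, mem_univ, true_and]
          rw [← hrt, swap_iff hF hFr hc]
          constructor
          · rintro ⟨⟨h3, h4⟩, h5⟩
            have h6 : π c = r := by rw [← h5]; simp
            exact ⟨⟨h3, h6⟩, fun i hi hi' => h4 i hi (by omega)⟩
          · rintro ⟨⟨h3, h6⟩, h4⟩
            refine ⟨⟨h3, ?_⟩, by rw [← h6]; simp⟩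
            intro i hi hi'
            by_cases h7 : (π i : ℕ) < r
            · exact h4 i hi h7
            · have h8 : π i = r := Fin.ext (by omega)
              have h9 : i = c := π.injective (by rw [h8, h6])
              rw [h8, h9, A_eq hF h3]
              exact hs
        · rw [card_eq_zero, filter_eq_empty_iff]
          intro π hπ h5
          simp only [mem_filter, mem_univ, true_and] at hπ
          obtain ⟨h3, h4⟩ := hπ
          have h6 : π c = r := by rw [← h5]; simp
          apply hs
          have h7 := h4 c (by rw [h6]; exact (mem_A.1 hc).2) (by rw [h6, hrt]; omega)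
          rw [h6] at h7
          rw [← A_eq hF (π := π) (p := p) h3]
          exact h7
      rw [sum_congr rfl hfib, ← sum_filter, sum_const, hsel, smul_eq_mul]
    · have hset : (univ.filter fun π : Equiv.Perm (Fin n) => Cl F p (t + 1) π ∧
          ∀ i, F i (π i) → (π i : ℕ) < t + 1 → sel (A F π (π i)) i) =
          (univ.filter fun π : Equiv.Perm (Fin n) => Cl F p t π ∧
          ∀ i, F i (π i) → (π i : ℕ) < t → sel (A F π (π i)) i) := by
        ext π
        simp only [mem_filter, mem_univ, true_and]
        have hcl : Cl F p (t + 1) π ↔ Cl F p t π := by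
          constructor
          · intro h
            refine ⟨h.1, fun i hi => ?_⟩
            rcases hi with hi | hi
            · exact h.2 i (Or.inl hi)
            · by_cases h1 : p i = r
              · refine h.2 i (Or.inl ?_)
                rw [h1]
                have : i = p.symm r := by rw [← h1]; simp
                rwa [this]
              · refine h.2 i (Or.inr ?_)
                have h4 : (p i : ℕ) ≠ r := fun h5 => h1 (Fin.ext h5)
                rw [hrt] at h4
                omega
          · intro h
            refine ⟨h.1, fun i hi => h.2 i ?_⟩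
            rcases hi with hi | hi
            · exact Or.inl hi
            · exact Or.inr (by omega)
        rw [hcl]
        refine and_congr_right fun hπ => ?_
        constructor
        · intro h i hi hi'
          exact h i hi (by omega)
        · intro h i hi hi'
          by_cases h1 : (π i : ℕ) < t
          · exact h i hi h1
          · exfalso
            have h2 : π i = r := Fin.ext (by rw [hrt]; omega)
            have h3 : p i = π i := hπ.high (by omega)
            rw [h2] at h3 hi
            apply hFr
            have : i = p.symm r := by rw [← h3]; simp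
            rwa [← this]
      rw [hset, ih p]
      refine prod_congr ?_ fun _ _ => rfl
      ext s
      simp only [mem_filter, mem_univ, true_and]
      constructor
      · rintro ⟨h1, h2⟩
        exact ⟨h1, by omega⟩
      · rintro ⟨h1, h2⟩
        refine ⟨h1, ?_⟩
        by_contra h3
        have h4 : s = r := Fin.ext (by rw [hrt]; omega)
        rw [h4] at h1
        exact hFr h1

end K4H30.SW
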