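import Pool.Agent.K4H30.SW.Glob

/-!
Patterns of length five.
-/

namespace K4H30.SW

open Finset

/-- pattern containment; `σ` is the one-line notation of the pattern -/
def Contains {n k : ℕ} (π : Equiv.Perm (Fin n)) (σ : Fin k → ℕ) : Prop :=
  ∃ f : Fin k → Fin n, StrictMono f ∧ ∀ a b, π (f a) < π (f b) ↔ σ a < σ b

theorem strictMono5 {n : ℕ} {a b c d e : Fin n} (h1 : a < b) (h2 : b < c) (h3 : c < d)
    (h4 : d < e) : StrictMono ![a, b, c, d, e] := by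
  rw [Fin.strictMono_iff_lt_succ]
  intro i
  fin_cases i <;> simpa

theorem contains5 {n : ℕ} (π : Equiv.Perm (Fin n)) (σ : Fin 5 → ℕ) :
    Contains π σ ↔ ∃ a b c d e : Fin n, a < b ∧ b < c ∧ c < d ∧ d < e ∧
      ∀ x y, π (![a, b, c, d, e] x) < π (![a, b, c, d, e] y) ↔ σ x < σ y := by
  constructor
  · rintro ⟨f, hf, h⟩
    refine ⟨f 0, f 1, f 2, f 3, f 4, hf (by decide), hf (by decide), hf (by decide),
      hf (by decide), ?_⟩
    have h1 : ![f 0, f 1, f 2, f 3, f 4] = f := by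
      ext i
      fin_cases i <;> rfl
    rw [h1]
    exact h
  · rintro ⟨a, b, c, d, e, h1, h2, h3, h4, h⟩
    exact ⟨_, strictMono5 h1 h2 h3 h4, h⟩

theorem c45123 {n : ℕ} (π : Equiv.Perm (Fin n)) :
    Contains π ![4, 5, 1, 2, 3] ↔ ∃ a b c d e : Fin n, a < b ∧ b < c ∧ c < d ∧ d < e ∧
      π c < π d ∧ π d < π e ∧ π e < π a ∧ π a < π b := by
  rw [contains5]
  constructor
  · rintro ⟨a, b, c, d, e, h1, h2, h3, h4, h⟩
    refine ⟨a, b, c, d, e, h1, h2, h3, h4, (h 2 3).2 ?_, (h 3 4).2 ?_, (h 4 0).2 ?_,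
      (h 0 1).2 ?_⟩ <;> simp
  · rintro ⟨a, b, c, d, e, h1, h2, h3, h4, h5, h6, h7, h8⟩
    refine ⟨a, b, c, d, e, h1, h2, h3, h4, ?_⟩
    intro x y
    fin_cases x <;> fin_cases y <;> simp <;> order

theorem c45213 {n : ℕ} (π : Equiv.Perm (Fin n)) :
    Contains π ![4, 5, 2, 1, 3] ↔ ∃ a b c d e : Fin n, a < b ∧ b < c ∧ c < d ∧ d < e ∧
      π d < π c ∧ π c < π e ∧ π e < π a ∧ π a < π b := by
  rw [contains5]
  constructor
  · rintro ⟨a, b, c, d, e, h1, h2, h3, h4, h⟩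
    refine ⟨a, b, c, d, e, h1, h2, h3, h4, (h 3 2).2 ?_, (h 2 4).2 ?_, (h 4 0).2 ?_,
      (h 0 1).2 ?_⟩ <;> simp
  · rintro ⟨a, b, c, d, e, h1, h2, h3, h4, h5, h6, h7, h8⟩
    refine ⟨a, b, c, d, e, h1, h2, h3, h4, ?_⟩
    intro x y
    fin_cases x <;> fin_cases y <;> simp <;> order

theorem c12345 {n : ℕ} (π : Equiv.Perm (Fin n)) :
    Contains π ![1, 2, 3, 4, 5] ↔ ∃ a b c d e : Fin n, a < b ∧ b < c ∧ c < d ∧ d < e ∧
      π a < π b ∧ π b < π c ∧ π c < π d ∧ π d < π e := by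
  rw [contains5]
  constructor
  · rintro ⟨a, b, c, d, e, h1, h2, h3, h4, h⟩
    refine ⟨a, b, c, d, e, h1, h2, h3, h4, (h 0 1).2 ?_, (h 1 2).2 ?_, (h 2 3).2 ?_,
      (h 3 4).2 ?_⟩ <;> simp
  · rintro ⟨a, b, c, d, e, h1, h2, h3, h4, h5, h6, h7, h8⟩
    refine ⟨a, b, c, d, e, h1, h2, h3, h4, ?_⟩
    intro x y
    fin_cases x <;> fin_cases y <;> simp <;> order

theorem c12354 {n : ℕ} (π : Equiv.Perm (Fin n)) :
    Contains π ![1, 2, 3, 5, 4] ↔ ∃ a b c d e : Fin n, a < b ∧ b < c ∧ c < d ∧ d < e ∧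
      π a < π b ∧ π b < π c ∧ π c < π e ∧ π e < π d := by
  rw [contains5]
  constructor
  · rintro ⟨a, b, c, d, e, h1, h2, h3, h4, h⟩
    refine ⟨a, b, c, d, e, h1, h2, h3, h4, (h 0 1).2 ?_, (h 1 2).2 ?_, (h 2 4).2 ?_,
      (h 4 3).2 ?_⟩ <;> simp
  · rintro ⟨a, b, c, d, e, h1, h2, h3, h4, h5, h6, h7, h8⟩
    refine ⟨a, b, c, d, e, h1, h2, h3, h4, ?_⟩
    intro x y
    fin_cases x <;> fin_cases y <;> simp <;> order

/-- the pattern set `{21}` -/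
def T2 : (Fin 2 → ℕ) → Prop := fun σ => σ = ![2, 1]

/-- the pattern set `{123, 132}` -/
def T3 : (Fin 3 → ℕ) → Prop := fun σ => σ = ![1, 2, 3] ∨ σ = ![1, 3, 2]

theorem above2 {n : ℕ} (π : Equiv.Perm (Fin n)) (i j : Fin n) :
    Above T2 π i j ↔ ∃ a b, i < a ∧ a < b ∧ j < π b ∧ π b < π a := by
  constructor
  · rintro ⟨σ, f, rfl, h1, h2, h3⟩
    refine ⟨f 0, f 1, (h2 0).1, h1 (by decide), (h2 1).2, (h3 1 0).2 (by simp)⟩
  · rintro ⟨a, b, h1, h2, h3, h4⟩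
    refine ⟨![2, 1], ![a, b], rfl, ?_, ?_, ?_⟩
    · rw [Fin.strictMono_iff_lt_succ]
      intro i
      fin_cases i
      simpa
    · intro x
      fin_cases x
      · exact ⟨h1, h3.trans h4⟩
      · exact ⟨h1.trans h2, h3⟩
    · intro x y
      fin_cases x <;> fin_cases y <;> simp <;> order

theorem above3 {n : ℕ} (π : Equiv.Perm (Fin n)) (i j : Fin n) :
    Above T3 π i j ↔ ∃ a b c, i < a ∧ a < b ∧ b < c ∧ j < π a ∧ π a < π b ∧ π a < π c := by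
  constructor
  · rintro ⟨σ, f, h0, h1, h2, h3⟩
    refine ⟨f 0, f 1, f 2, (h2 0).1, h1 (by decide), h1 (by decide), (h2 0).2,
      (h3 0 1).2 ?_, (h3 0 2).2 ?_⟩
    · rcases h0 with rfl | rfl <;> simp
    · rcases h0 with rfl | rfl <;> simp
  · rintro ⟨a, b, c, h1, h2, h3, h4, h5, h6⟩
    have hbc : π b ≠ π c := fun h => h3.ne (π.injective h)
    have hmono : StrictMono ![a, b, c] := by
      rw [Fin.strictMono_iff_lt_succ]
      intro i
      fin_cases i <;> simpa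
    have hab : ∀ x, i < ![a, b, c] x ∧ j < π (![a, b, c] x) := by
      intro x
      fin_cases x
      · exact ⟨h1, h4⟩
      · exact ⟨h1.trans h2, h4.trans h5⟩
      · exact ⟨(h1.trans h2).trans h3, h4.trans h6⟩
    rcases lt_or_gt_of_ne hbc with h7 | h7
    · refine ⟨![1, 2, 3], ![a, b, c], Or.inl rfl, hmono, hab, ?_⟩
      intro x y
      fin_cases x <;> fin_cases y <;> simp <;> order
    · refine ⟨![1, 3, 2], ![a, b, c], Or.inr rfl, hmono, hab, ?_⟩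
      intro x y
      fin_cases x <;> fin_cases y <;> simp <;> order

end K4H30.SW
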